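import Pool.Agent.TH397.BR4

/-!
# MP_6bff71_co: random colourings are beaten for every `k ≥ 3` and every `r ≥ 2`

Let `k ≥ 3` and `r ≥ 2`.  Perturb the uniform random `r`-colouring of `[n]`: the point `x` gets the
first colour with probability `(1 + η f x) / r`, the second one with probability `(1 - η f x) / r` and
any other colour with probability `1 / r`, where `f` is `1` on two blocks at distance about
`2 n / (2 k - 1)` from the centre on either side, `-2` on a block at the centre, and `0` elsewhere.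
The first order term of the expected number of monochromatic `k`-term progressions vanishes, and the
second order term is negative: the number of ways in which two points lie on a common progression is
the same for all pairs inside one block or in neighbouring blocks (no boundary effect), but it is
smaller for the pairs in the two outer blocks.  Finally the number of monochromatic progressions is
moved up to `δ n² + O(n)` by recolouring the points one by one.
-/

set_option autoImplicit false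

namespace Pool.Agent.Results.MP_6bff71_co.BeatRandom

open Finset

/-- `ap k a d` is the set `{a, a + d, …, a + (k - 1) d}`. -/
def ap (k a d : ℕ) : Finset ℕ := (range k).image (fun j => a + j * d)

/-- `aps k n` is the set of all `k`-term arithmetic progressions contained in `[n] = {1, …, n}`
(first term at least `1`, common difference at least `1`). -/
def aps (k n : ℕ) : Finset (Finset ℕ) :=
  ((Icc 1 n ×ˢ Icc 1 n).image (fun p => ap k p.1 p.2)).filter (fun A => A ⊆ Icc 1 n)

/-- `M k n χ` is the number of `k`-term arithmetic progressions in `[n]` that are monochromatic under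
`χ` (only the values of `χ` on `[n]` matter). -/
def M (k n : ℕ) {r : ℕ} (χ : ℕ → Fin r) : ℕ :=
  ((aps k n).filter (fun A => ∀ x ∈ A, ∀ y ∈ A, χ x = χ y)).card

/-- For all `k ≥ 3` and `r ≥ 2` there are a constant `δ` below the random rate
`1 / (2 (k - 1) r ^ (k - 1))` and `r`-colourings `χ n` of `[n]` with exactly `δ n² + O(n)`
monochromatic `k`-term arithmetic progressions. -/
theorem result (k r : ℕ) (hk : 3 ≤ k) (hr : 2 ≤ r) :
    ∃ δ : ℝ, δ < 1 / (2 * ((k : ℝ) - 1) * (r : ℝ) ^ (k - 1)) ∧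
      ∃ (C : ℝ) (χ : ℕ → ℕ → Fin r), ∀ n : ℕ,
        |(M k n (χ n) : ℝ) - δ * (n : ℝ) ^ 2| ≤ C * n := by
  obtain ⟨K, rfl⟩ : ∃ K, k = K + 1 := ⟨k - 1, by omega⟩
  have hK : 2 ≤ K := by omega
  obtain ⟨δ, hδ, n0, hlow⟩ := Pool.Agent.TH397.BR.low K r hK hr
  have hK0 : (1 : ℝ) ≤ K := by exact_mod_cast (by omega : 1 ≤ K)
  have hr1 : (1 : ℝ) ≤ r := by exact_mod_cast (by omega : 1 ≤ r)
  have hrK : (1 : ℝ) ≤ (r : ℝ) ^ K := one_le_pow₀ hr1
  have hM : ∀ (n : ℕ) (χ : ℕ → Fin r), M (K + 1) n χ =
      ((Pool.Agent.TH397.BR.PP K n).filter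
        (fun p : ℕ × ℕ => ∀ j < K + 1, χ (p.1 + j * p.2) = χ p.1)).card :=
    fun n χ => Pool.Agent.TH397.BR.M_eq (by omega) χ
  refine ⟨δ, ?_, (K + 1) + (1 + |δ|) * n0, ?_⟩
  · refine hδ.trans_le (le_of_eq ?_)
    push_cast
    simp
  have key : ∀ n : ℕ, ∃ χ : ℕ → Fin r,
      |(M (K + 1) n χ : ℝ) - δ * (n : ℝ) ^ 2| ≤ ((K + 1) + (1 + |δ|) * n0) * n := by
    intro n
    have hn0 : (0 : ℝ) ≤ n := by positivity
    have hn00 : (0 : ℝ) ≤ n0 := by positivity
    by_cases hn : n0 ≤ n
    · obtain ⟨χ, hχ⟩ := hlow n hn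
      have hδ2 : δ ≤ 1 / (2 * K) := by
        refine hδ.le.trans ?_
        apply one_div_le_one_div_of_le (by positivity)
        nlinarith
      have hD : δ * (n : ℝ) ^ 2 ≤ (Pool.Agent.TH397.BR.PP K n).card + n := by
        have h1 := Pool.Agent.TH397.BR.card_PP_ge (K := K) (n := n) (by omega)
        have h2 : δ * (n : ℝ) ^ 2 ≤ 1 / (2 * K) * (n : ℝ) ^ 2 :=
          mul_le_mul_of_nonneg_right hδ2 (by positivity)
        have h3 : 1 / (2 * (K : ℝ)) * (n : ℝ) ^ 2 = (n : ℝ) ^ 2 / (2 * K) := by ring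
        linarith
      obtain ⟨χ', hχ'⟩ := Pool.Agent.TH397.BR.ivt (K := K) (n := n) (by omega) (by omega) _ χ hχ hD
      refine ⟨χ', ?_⟩
      rw [hM]
      refine hχ'.trans ?_
      apply mul_le_mul_of_nonneg_right _ hn0
      have : 0 ≤ (1 + |δ|) * n0 := by positivity
      linarith
    · rw [not_le] at hn
      refine ⟨fun _ => ⟨0, by omega⟩, ?_⟩
      rw [hM]
      have h1 : ((((Pool.Agent.TH397.BR.PP K n).filter
        (fun p : ℕ × ℕ => ∀ j < K + 1, (fun _ : ℕ => (⟨0, by omega⟩ : Fin r)) (p.1 + j * p.2)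
          = (fun _ : ℕ => (⟨0, by omega⟩ : Fin r)) p.1)).card : ℕ) : ℝ) ≤
          (Pool.Agent.TH397.BR.PP K n).card := by
        exact_mod_cast card_filter_le _ _
      have h2 := Pool.Agent.TH397.BR.card_PP_le (K := K) (n := n) (by omega)
      have h3 : (n : ℝ) ^ 2 / (2 * K) ≤ (n : ℝ) ^ 2 := by
        rw [div_le_iff₀ (by positivity)]
        nlinarith [sq_nonneg (n : ℝ)]
      set m : ℝ := ((((Pool.Agent.TH397.BR.PP K n).filter
        (fun p : ℕ × ℕ => ∀ j < K + 1, (fun _ : ℕ => (⟨0, by omega⟩ : Fin r)) (p.1 + j * p.2)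
          = (fun _ : ℕ => (⟨0, by omega⟩ : Fin r)) p.1)).card : ℕ) : ℝ)
      have hm0 : 0 ≤ m := by positivity
      have hnn : (n : ℝ) ^ 2 ≤ n0 * n := by
        rw [sq]; exact mul_le_mul_of_nonneg_right (by exact_mod_cast hn.le) hn0
      have h4 : |m - δ * (n : ℝ) ^ 2| ≤ m + |δ| * (n : ℝ) ^ 2 := by
        refine (abs_sub _ _).trans ?_
        rw [abs_of_nonneg hm0, abs_mul, abs_of_nonneg (sq_nonneg (n : ℝ))]
      have h5 : m + |δ| * (n : ℝ) ^ 2 ≤ (1 + |δ|) * (n : ℝ) ^ 2 := by linarith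
      have h6 : (1 + |δ|) * (n : ℝ) ^ 2 ≤ (1 + |δ|) * (n0 * n) :=
        mul_le_mul_of_nonneg_left hnn (by positivity)
      have h7 : 0 ≤ ((K : ℝ) + 1) * n := by positivity
      nlinarith
  choose χ hχ using key
  exact ⟨χ, hχ⟩

end Pool.Agent.Results.MP_6bff71_co.BeatRandom
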